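import Pool.Agent.Y17.N.Defs3

/-!
# A determinant identity (S_LEAF), project Z17N of helper17, written by helper67
-/

set_option autoImplicit false

namespace Pool.Agent.Y67.N

open Finset Matrix
open Pool.Agent.Z700 (Yd)

/-- the sum over all subsets of a product of few affine functions is even -/
theorem leaf_aff {τ : Type} [DecidableEq τ] (T : Finset τ) :
    ∀ (P : Finset ℕ) (a : τ → ℤ) (b : τ → ℕ → ℤ), T.card < P.card →
      Even (∑ S ∈ P.powerset, ∏ t ∈ T, (a t + ∑ s ∈ S, b t s)) := by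
  induction T using Finset.induction_on with
  | empty =>
    intro P a b h
    simp only [Finset.prod_empty, Finset.sum_const, Finset.card_powerset, nsmul_eq_mul, mul_one]
    rw [Finset.card_empty] at h
    push_cast
    exact (even_two).pow_of_ne_zero (by omega)
  | insert t T ht ih =>
    intro P a b h
    rw [Finset.card_insert_of_notMem ht] at h
    have e1 : ∑ S ∈ P.powerset, ∏ t' ∈ insert t T, (a t' + ∑ s ∈ S, b t' s) =
        a t * ∑ S ∈ P.powerset, ∏ t' ∈ T, (a t' + ∑ s ∈ S, b t' s) +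
        ∑ s ∈ P, b t s * ∑ S ∈ P.powerset, (if s ∈ S then ∏ t' ∈ T, (a t' + ∑ s ∈ S, b t' s)
          else 0) := by
      simp only [Finset.mul_sum]
      rw [Finset.sum_comm, ← Finset.sum_add_distrib]
      refine Finset.sum_congr rfl fun S hS => ?_
      rw [Finset.prod_insert ht, add_mul]
      congr 1
      rw [Finset.sum_mul]
      have hSP := Finset.mem_powerset.mp hS
      rw [← Finset.sum_subset hSP (f := fun s => b t s * (if s ∈ S then
        ∏ t' ∈ T, (a t' + ∑ s ∈ S, b t' s) else 0))]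
      · refine Finset.sum_congr rfl fun s hs => ?_
        rw [if_pos hs]
      · intro s _ hs
        rw [if_neg hs, mul_zero]
    rw [e1]
    refine Even.add ((ih P a b (by omega)).mul_left _) ?_
    refine Finset.even_sum _ fun s hs => Even.mul_left ?_ _
    have hP : P = insert s (P.erase s) := (Finset.insert_erase hs).symm
    have e2 : ∑ S ∈ P.powerset, (if s ∈ S then ∏ t' ∈ T, (a t' + ∑ s ∈ S, b t' s) else 0) =
        ∑ S ∈ (P.erase s).powerset, ∏ t' ∈ T, ((a t' + b t' s) + ∑ s ∈ S, b t' s) := by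
      conv_lhs => rw [hP]
      rw [Finset.sum_powerset_insert (Finset.notMem_erase s P)]
      have h0 : ∑ S ∈ (P.erase s).powerset, (if s ∈ S then ∏ t' ∈ T, (a t' + ∑ s ∈ S, b t' s)
          else 0) = 0 := by
        refine Finset.sum_eq_zero fun S hS => ?_
        rw [if_neg]
        intro hs'
        exact Finset.notMem_erase s P (Finset.mem_powerset.mp hS hs')
      rw [h0, zero_add]
      refine Finset.sum_congr rfl fun S hS => ?_
      have hs' : s ∉ S := fun hs' => Finset.notMem_erase s P (Finset.mem_powerset.mp hS hs')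
      rw [if_pos (Finset.mem_insert_self _ _)]
      refine Finset.prod_congr rfl fun t' _ => ?_
      rw [Finset.sum_insert hs', add_assoc]
    rw [e2]
    refine ih (P.erase s) (fun t' => a t' + b t' s) b ?_
    rw [Finset.card_erase_of_mem hs]
    omega

/-- the constant part of the entries -/
def leafA (e : ℕ → ℤ) (r i : ℕ) : ℤ := if r = i then e r else 0

/-- the linear part of the entries -/
def leafB (l : ℕ → ℕ → ℤ) (r i s : ℕ) : ℤ :=
  if r = i then (if s = r then 0 else l r s) else (if s = i then -l r i else 0)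

/-- the matrix of a subset -/
def leafM (l : ℕ → ℕ → ℤ) (e : ℕ → ℤ) (P S : Finset ℕ) : Matrix P P ℤ :=
  Matrix.of fun r i => leafA e r i + ∑ s ∈ S, leafB l r i s

theorem leafM_diag (l : ℕ → ℕ → ℤ) (e : ℕ → ℤ) (S : Finset ℕ) (r : ℕ) :
    leafA e r r + ∑ s ∈ S, leafB l r r s = (∑ k ∈ S.erase r, l r k) + e r := by
  unfold leafA leafB
  simp only [if_true]
  rw [add_comm]
  congr 1
  by_cases hr : r ∈ S
  · rw [← Finset.add_sum_erase S _ hr, if_pos rfl, zero_add]
    refine Finset.sum_congr rfl fun k hk => ?_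
    rw [if_neg (Finset.mem_erase.mp hk).1]
  · rw [Finset.erase_eq_of_notMem hr]
    refine Finset.sum_congr rfl fun k hk => ?_
    rw [if_neg]
    rintro rfl
    exact hr hk

theorem leafM_off (l : ℕ → ℕ → ℤ) (e : ℕ → ℤ) (S : Finset ℕ) {r i : ℕ} (h : r ≠ i) :
    leafA e r i + ∑ s ∈ S, leafB l r i s = if i ∈ S then -l r i else 0 := by
  unfold leafA leafB
  simp only [if_neg h, zero_add]
  rw [Finset.sum_ite_eq' S i]

theorem leaf_det (l : ℕ → ℕ → ℤ) (e : ℕ → ℤ) {P S : Finset ℕ} (hS : S ⊆ P) :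
    (leafM l e P S).det = Yd l e S * ∏ p ∈ P \ S, (e p + ∑ s ∈ S, l p s) := by
  classical
  rw [Matrix.twoBlockTriangular_det' (leafM l e P S) (fun i : P => i.1 ∈ S) (by
    intro i hi j hj
    have hne : i.1 ≠ j.1 := by
      intro h
      rw [h] at hi
      exact hj hi
    unfold leafM
    rw [Matrix.of_apply, leafM_off _ _ _ hne, if_neg hj])]
  congr 1
  · let e1 : {a : P // a.1 ∈ S} ≃ S :=
      { toFun := fun a => ⟨a.1.1, a.2⟩
        invFun := fun a => ⟨⟨a.1, hS a.2⟩, a.2⟩
        left_inv := fun a => rfl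
        right_inv := fun a => rfl }
    unfold Yd
    rw [← Matrix.det_submatrix_equiv_self e1]
    congr 1
    ext i j
    rw [Matrix.submatrix_apply, Matrix.of_apply, Matrix.toSquareBlockProp_def, Matrix.of_apply]
    unfold leafM
    rw [Matrix.of_apply]
    by_cases hij : i = j
    · subst hij
      rw [if_pos rfl, leafM_diag]
      rfl
    · rw [if_neg (fun h => hij (e1.injective h)), leafM_off]
      · rw [if_pos j.2]
        rfl
      · exact fun h => hij (Subtype.ext (Subtype.ext h))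
  · have hd : (leafM l e P S).toSquareBlockProp (fun i : P => ¬ i.1 ∈ S) =
        Matrix.diagonal fun i : {a : P // ¬ a.1 ∈ S} => e i.1.1 + ∑ s ∈ S, l i.1.1 s := by
      ext i j
      rw [Matrix.toSquareBlockProp_def, Matrix.of_apply]
      unfold leafM
      rw [Matrix.of_apply]
      by_cases hij : i = j
      · subst hij
        rw [Matrix.diagonal_apply_eq, leafM_diag, Finset.erase_eq_of_notMem i.2, add_comm]
      · rw [Matrix.diagonal_apply_ne _ hij, leafM_off, if_neg j.2]
        exact fun h => hij (Subtype.ext (Subtype.ext h))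
    rw [hd, Matrix.det_diagonal]
    let e2 : {a : P // ¬ a.1 ∈ S} ≃ ↥(P \ S) :=
      { toFun := fun a => ⟨a.1.1, Finset.mem_sdiff.mpr ⟨a.1.2, a.2⟩⟩
        invFun := fun a => ⟨⟨a.1, (Finset.mem_sdiff.mp a.2).1⟩, (Finset.mem_sdiff.mp a.2).2⟩
        left_inv := fun a => rfl
        right_inv := fun a => rfl }
    rw [← Finset.prod_coe_sort (P \ S)]
    exact Fintype.prod_equiv e2 _ _ fun i => rfl

theorem leaf_rowsum (l : ℕ → ℕ → ℤ) (e : ℕ → ℤ) {P S : Finset ℕ} (hS : S ⊆ P) (r : P) :
    ∑ i : P, leafM l e P S r i = e r := by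
  classical
  unfold leafM
  simp only [Matrix.of_apply]
  rw [Finset.sum_coe_sort P (fun i => leafA e r i + ∑ s ∈ S, leafB l r i s),
    ← Finset.add_sum_erase P _ r.2, leafM_diag]
  have h1 : ∑ i ∈ P.erase r.1, (leafA e r i + ∑ s ∈ S, leafB l r i s) =
      ∑ i ∈ S.erase r.1, -l r i := by
    have h2 : S.erase r.1 ⊆ P.erase r.1 := Finset.erase_subset_erase _ hS
    rw [← Finset.sum_subset h2]
    · refine Finset.sum_congr rfl fun i hi => ?_
      rw [leafM_off _ _ _ (Finset.mem_erase.mp hi).1.symm, if_pos (Finset.mem_erase.mp hi).2]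
    · intro i hi hi'
      have h3 : i ≠ r.1 := (Finset.mem_erase.mp hi).1
      rw [leafM_off _ _ _ h3.symm, if_neg]
      exact fun h => hi' (Finset.mem_erase.mpr ⟨h3, h⟩)
  rw [h1, Finset.sum_neg_distrib]
  ring

/-- **LEAF.** -/
theorem t_LEAF : Pool.Agent.Y17.N.S_LEAF := by
  classical
  intro l e P hP
  obtain ⟨p0, hp0⟩ := hP
  have h1 : ∀ S ∈ P.powerset, Yd l e S * ∏ p ∈ P \ S, (e p + ∑ s ∈ S, l p s) =
      ∑ σ : Equiv.Perm P, Equiv.Perm.sign σ • (e (σ ⟨p0, hp0⟩) *
        ∏ i ∈ Finset.univ.erase (⟨p0, hp0⟩ : P), (leafA e (σ i) i + ∑ s ∈ S, leafB l (σ i) i s)) := by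
    intro S hS
    have hSP := Finset.mem_powerset.mp hS
    rw [← leaf_det l e hSP]
    have h2 := Matrix.det_updateCol_sum (leafM l e P S) ⟨p0, hp0⟩ (fun _ => 1)
    simp only [one_smul] at h2
    rw [← h2, Matrix.det_apply]
    refine Finset.sum_congr rfl fun σ _ => ?_
    congr 1
    rw [← Finset.mul_prod_erase _ _ (Finset.mem_univ (⟨p0, hp0⟩ : P)), Matrix.updateCol_self]
    congr 1
    · exact leaf_rowsum l e hSP _
    · refine Finset.prod_congr rfl fun i hi => ?_
      rw [Matrix.updateCol_ne (Finset.mem_erase.mp hi).1]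
      rfl
  rw [Finset.sum_congr rfl h1, Finset.sum_comm]
  refine Finset.even_sum _ fun σ _ => ?_
  rw [← Finset.smul_sum, ← Finset.mul_sum]
  have h3 := leaf_aff (Finset.univ.erase (⟨p0, hp0⟩ : P)) P (fun i => leafA e (σ i) i)
    (fun i s => leafB l (σ i) i s) (by
      rw [Finset.card_erase_of_mem (Finset.mem_univ _), Finset.card_univ, Fintype.card_coe]
      have : 0 < P.card := Finset.card_pos.mpr ⟨p0, hp0⟩
      omega)
  have h4 := h3.mul_left (e (σ ⟨p0, hp0⟩))
  rcases Int.units_eq_one_or (Equiv.Perm.sign σ) with h5 | h5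
  · rw [h5, one_smul]
    exact h4
  · rw [h5]
    have h6 : ∀ z : ℤ, ((-1 : ℤˣ) • z) = -z := fun z => by
      rw [Units.smul_def]
      simp
    rw [h6]
    exact h4.neg

end Pool.Agent.Y67.N
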